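import Pool.Agent.H9.SQ3

open Filter Topology Matrix
open scoped ComplexOrder

namespace Pool.Agent.Results.MP_7519fb_mp.Cont

/-- The symplectic form: index `(i, 0)` is `Q_i` and `(i, 1)` is `P_i`. -/
def sigma (n : ℕ) : Matrix (Fin n × Fin 2) (Fin n × Fin 2) ℝ :=
  Matrix.of fun p q => if p.1 = q.1 then !![(0 : ℝ), 1; -1, 0] p.2 q.2 else 0

/-- Covariance matrices: real symmetric `g` with `g - i σ` positive semidefinite. -/
def IsCov (n : ℕ) (g : Matrix (Fin n × Fin 2) (Fin n × Fin 2) ℝ) : Prop :=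
  g.IsSymm ∧ (g.map Complex.ofReal - Complex.I • (sigma n).map Complex.ofReal).PosSemidef

/-- Singular values in decreasing order (index from `0`): square roots of the decreasingly
ordered eigenvalues of `Aᵀ A`. -/
noncomputable def singVal {m : Type} [Fintype m] [DecidableEq m] (A : Matrix m m ℝ)
    (i : Fin (Fintype.card m)) : ℝ :=
  √((isHermitian_conjTranspose_mul_self A).eigenvalues₀ i)

/-- Sum of the logarithms of the `n` largest singular values. -/
noncomputable def logTop {m : Type} [Fintype m] [DecidableEq m] (n : ℕ) (A : Matrix m m ℝ) : ℝ :=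
  ∑ i : Fin (Fintype.card m) with i.val < n, Real.log (singVal A i)

/-- The operational squeezing measure `G`. -/
noncomputable def G (n : ℕ) (g : Matrix (Fin n × Fin 2) (Fin n × Fin 2) ℝ) : ℝ :=
  sInf {r | ∃ S : Matrix (Fin n × Fin 2) (Fin n × Fin 2) ℝ,
    Sᵀ * sigma n * S = sigma n ∧ (g - Sᵀ * S).PosSemidef ∧ r = logTop n S}

open Pool.Agent.H9.SQ

lemma sigma_t (n : ℕ) : (sigma n)ᵀ = -sigma n := by
  ext ⟨i, a⟩ ⟨j, b⟩
  by_cases h : i = j
  · subst h
    fin_cases a <;> fin_cases b <;> simp [sigma]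
  · simp [sigma, h, Ne.symm h]

lemma sigma_sq (n : ℕ) : sigma n * sigma n = -1 := by
  ext ⟨i, a⟩ ⟨j, b⟩
  by_cases h : i = j
  · subst h
    fin_cases a <;> fin_cases b <;>
      simp [sigma, Matrix.mul_apply, Fintype.sum_prod_type]
  · fin_cases a <;> fin_cases b <;>
      simp [sigma, Matrix.mul_apply, Fintype.sum_prod_type, h]

section
variable {m : Type} [Fintype m] [DecidableEq m]

omit [DecidableEq m] in
lemma unc_of {J g : Matrix m m ℝ} (hJt : Jᵀ = -J) (hs : g.IsSymm)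
    (h : (g.map Complex.ofReal - Complex.I • J.map Complex.ofReal).PosSemidef) : Unc J g := by
  refine ⟨hs, fun x y => ?_⟩
  have h1 := (Complex.le_def.1 (h.dotProduct_mulVec_nonneg fun i => (x i : ℂ) + Complex.I * y i)).1
  have h2 : y ⬝ᵥ (J *ᵥ x) = -(x ⬝ᵥ (J *ᵥ y)) := by
    rw [dotProduct_mulVec, ← mulVec_transpose, hJt, neg_mulVec, neg_dotProduct, dotProduct_comm]
  have h3 : (star (fun i => (x i : ℂ) + Complex.I * y i) ⬝ᵥ
      ((g.map Complex.ofReal - Complex.I • J.map Complex.ofReal) *ᵥ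
        fun i => (x i : ℂ) + Complex.I * y i)).re =
      x ⬝ᵥ (g *ᵥ x) + y ⬝ᵥ (g *ᵥ y) + x ⬝ᵥ (J *ᵥ y) - y ⬝ᵥ (J *ᵥ x) := by
    simp only [dotProduct, mulVec, Finset.mul_sum, Complex.re_sum, ← Finset.sum_add_distrib,
      ← Finset.sum_sub_distrib]
    refine Finset.sum_congr rfl fun i _ => Finset.sum_congr rfl fun j _ => ?_
    simp
    ring
  rw [h3, h2, Complex.zero_re] at h1
  linarith

lemma logTop_tendsto {J S : Matrix m m ℝ} {Sk : ℕ → Matrix m m ℝ} (n : ℕ) (hJJ : J * J = -1)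
    (hS : Sᵀ * J * S = J) (hl : Tendsto (fun k => (Sk k)ᵀ * Sk k) atTop (𝓝 (Sᵀ * S))) :
    Tendsto (fun k => logTop n (Sk k)) atTop (𝓝 (logTop n S)) := by
  have h1 := ev_tendsto (A := fun k => (Sk k)ᴴ * Sk k)
    (fun k => posSemidef_conjTranspose_mul_self (Sk k)) (isHermitian_conjTranspose_mul_self S)
    (by simpa only [conjTranspose_eq_transpose_of_trivial] using hl)
  have hd : S.det ≠ 0 := by
    refine Matrix.det_ne_zero_of_left_inverse (B := -(J * Sᵀ * J)) ?_
    simp only [Matrix.neg_mul, Matrix.mul_assoc]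
    rw [← Matrix.mul_assoc Sᵀ, hS, hJJ, neg_neg]
  have hp : (Sᴴ * S).PosDef := (posSemidef_conjTranspose_mul_self S).posDef_iff_det_ne_zero.2 (by
    rw [det_mul, det_conjTranspose, star_trivial]
    exact mul_ne_zero hd hd)
  refine tendsto_finsetSum _ fun i _ => ?_
  refine ((((continuous_apply i).tendsto _).comp h1).sqrt).log ?_
  obtain ⟨j, hj⟩ := ev_mem (isHermitian_conjTranspose_mul_self S) i
  rw [hj]
  exact (Real.sqrt_pos.2 (hp.eigenvalues_pos j)).ne'

omit [DecidableEq m] in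
lemma diag_bound {g : ℕ → Matrix m m ℝ} {g0 : Matrix m m ℝ} (hl : Tendsto g atTop (𝓝 g0)) :
    ∃ R : ℝ, 2 ≤ R ∧ ∀ k j, 1 + g k j j ≤ R := by
  have c : Continuous fun A : Matrix m m ℝ => ∑ j, |A j j| := by fun_prop
  obtain ⟨R, hR⟩ := ((c.tendsto g0).comp hl).bddAbove_range
  have h : ∀ k, ∑ j, |g k j j| ≤ R := fun k => hR ⟨k, rfl⟩
  have h0 : 0 ≤ R := (Finset.sum_nonneg fun j _ => abs_nonneg _).trans (h 0)
  refine ⟨2 + R, by linarith, fun k j => ?_⟩
  have := Finset.single_le_sum (f := fun j => |g k j j|) (fun j _ => abs_nonneg _)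
    (Finset.mem_univ j)
  linarith [le_abs_self (g k j j), h k]

omit [DecidableEq m] in
lemma symp_limit {J S : Matrix m m ℝ} {Sk : ℕ → Matrix m m ℝ} (h : ∀ k, (Sk k)ᵀ * J * Sk k = J)
    (hl : Tendsto Sk atTop (𝓝 S)) :
    Sᵀ * J * S = J ∧ Tendsto (fun k => (Sk k)ᵀ * Sk k) atTop (𝓝 (Sᵀ * S)) := by
  have c1 : Continuous fun A : Matrix m m ℝ => Aᵀ * J * A :=
    (continuous_id.matrix_transpose.matrix_mul continuous_const).matrix_mul continuous_id
  have c2 : Continuous fun A : Matrix m m ℝ => Aᵀ * A :=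
    continuous_id.matrix_transpose.matrix_mul continuous_id
  exact ⟨tendsto_nhds_unique ((c1.tendsto S).comp hl) (tendsto_const_nhds.congr fun k => (h k).symm),
    (c2.tendsto S).comp hl⟩

lemma tut {J T : Matrix m m ℝ} (hJJ : J * J = -1) (hT : T * J * T = J) (X : Matrix m m ℝ) :
    T * (J * T * J * X * (J * T * J)) * T = X := by
  simp only [Matrix.mul_assoc, asc3 hT, asc hJJ, Matrix.neg_mul, Matrix.one_mul]
  rw [← Matrix.mul_assoc T J T, hT, hJJ]
  simp

def FS (n : ℕ) (J g : Matrix m m ℝ) : Set ℝ :=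
  {r | ∃ S : Matrix m m ℝ, Sᵀ * J * S = J ∧ (g - Sᵀ * S).PosSemidef ∧ r = logTop n S}

lemma FS_bdd (n : ℕ) {J : Matrix m m ℝ} (hJJ : J * J = -1) (g : Matrix m m ℝ) :
    BddBelow (FS n J g) := by
  by_contra hb
  rw [not_bddBelow_iff] at hb
  choose r hr hr2 using fun k : ℕ => hb (-(k : ℝ))
  choose S h1 h2 h3 using hr
  obtain ⟨R, -, hR⟩ := diag_bound (g := fun _ => g) tendsto_const_nhds
  have hb : ∀ k i j, |S k i j| ≤ R := fun k i j => (entry_bound (h2 k) i j).trans (hR 0 j)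
  obtain ⟨φ, S', -, -, hφ, hl, -, -⟩ := subseq3 S S S R hb hb hb
  obtain ⟨h4, h5⟩ := symp_limit (fun k => h1 (φ k)) hl
  have h6 := logTop_tendsto n hJJ h4 h5
  have h7 : Tendsto (fun k => logTop n (S (φ k))) atTop atBot := by
    refine tendsto_atBot_mono (fun k => ?_) (tendsto_neg_atTop_atBot.comp
      (tendsto_natCast_atTop_atTop.comp hφ.tendsto_atTop))
    rw [← h3]
    exact (hr2 _).le
  exact not_tendsto_nhds_of_tendsto_atBot h7 _ h6

lemma dec_feas {J g T : Matrix m m ℝ} (hJJ : J * J = -1) (hTs : Tᵀ = T) (hT : T * J * T = J)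
    (hH : (J * T * J * g * (J * T * J) - 1).PosSemidef) : (g - Tᵀ * T).PosSemidef := by
  have := psd_conj hH T
  rw [hTs, Matrix.mul_sub, Matrix.sub_mul, tut hJJ hT, Matrix.mul_one] at this
  rwa [hTs]

lemma main (n : ℕ) {J g0 : Matrix m m ℝ} {g : ℕ → Matrix m m ℝ} (hJt : Jᵀ = -J)
    (hJJ : J * J = -1) (hg : ∀ k, Unc J (g k)) (hg0 : Unc J g0) (hl : Tendsto g atTop (𝓝 g0)) :
    ∃ φ : ℕ → ℕ, Tendsto (fun k => sInf (FS n J (g (φ k)))) atTop (𝓝 (sInf (FS n J g0))) := by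
  have hne : ∀ a, Unc J a → (FS n J a).Nonempty := by
    intro a ha
    obtain ⟨T, M, h1, h2, -, -, h5, -⟩ := decomp hJt hJJ ha
    exact ⟨_, T, by rw [h1, h2], dec_feas hJJ h1 h2 h5, rfl⟩
  choose T M t1 t2 t3 t4 t5 t6 using fun k => decomp hJt hJJ (hg k)
  have he : ∀ k : ℕ, (0 : ℝ) < 1 / ((k : ℝ) + 1) := fun k => by positivity
  choose r hr hr2 using fun k : ℕ => exists_lt_of_csInf_lt (hne _ (hg k))
    (lt_add_of_pos_right _ (he k))
  choose S s1 s2 s3 using hr
  obtain ⟨R, hR2, hR⟩ := diag_bound hl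
  have bS : ∀ k i j, |S k i j| ≤ R := fun k i j => (entry_bound (s2 k) i j).trans (hR k j)
  have bT : ∀ k i j, |T k i j| ≤ R := fun k i j =>
    (entry_bound (dec_feas hJJ (t1 k) (t2 k) (t5 k)) i j).trans (hR k j)
  have bM : ∀ k i j, |M k i j| ≤ R := by
    intro k i j
    obtain ⟨g1, g2⟩ := one_sub_sq (t5 k) (t6 k)
    have := entry_bound (S := M k) (G := 1) (by
      rw [psd_symm (t3 k), g2, sub_sub_cancel]
      exact (g1.inv.smul two_pos).posSemidef) i j
    rw [one_apply_eq] at this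
    linarith
  obtain ⟨φ, S', T', M', hφ, lS, lT, lM⟩ := subseq3 S T M R bS bT bM
  have lg := hl.comp hφ.tendsto_atTop
  refine ⟨φ, ?_⟩
  obtain ⟨u1, u2⟩ := symp_limit (fun k => s1 (φ k)) lS
  have u3 := logTop_tendsto n hJJ u1 u2
  have u4 : (g0 - S'ᵀ * S').PosSemidef := psd_limit (fun k => s2 (φ k)) (lg.sub u2)
  have lG : Tendsto (fun k => sInf (FS n J (g (φ k)))) atTop (𝓝 (logTop n S')) := by
    have e := u3.sub ((tendsto_one_div_add_atTop_nhds_zero_nat (𝕜 := ℝ)).comp hφ.tendsto_atTop)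
    rw [sub_zero] at e
    refine tendsto_of_tendsto_of_tendsto_of_le_of_le e u3 (fun k => ?_) fun k => ?_
    · have := hr2 (φ k)
      rw [s3] at this
      simp only [Function.comp]
      linarith
    · exact csInf_le (FS_bdd n hJJ _) ⟨_, s1 _, s2 _, rfl⟩
  have hT's : T'ᵀ = T' := tendsto_nhds_unique
    ((continuous_id.matrix_transpose.tendsto T').comp lT) (lT.congr fun k => (t1 _).symm)
  have hT' : T' * J * T' = J := by
    have := (symp_limit (J := J) (fun k => by rw [t1, t2]) lT).1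
    rwa [hT's] at this
  have lU : Tendsto (fun k => J * T (φ k) * J) atTop (𝓝 (J * T' * J)) :=
    (lT.const_mul J).mul_const J
  have hUs : (J * T' * J)ᵀ = J * T' * J := by
    rw [transpose_mul, transpose_mul, hJt, hT's]
    simp [Matrix.mul_assoc]
  have key : sInf (FS n J g0) = logTop n S' := by
    refine le_antisymm (csInf_le (FS_bdd n hJJ _) ⟨_, u1, u4, rfl⟩) (le_csInf (hne _ hg0) ?_)
    rintro _ ⟨S0, v1, v2, rfl⟩
    have v3 : S0 * J * S0ᵀ = J := by
      have a1 : -(J * S0ᵀ * J) * S0 = 1 := by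
        simp only [Matrix.neg_mul, Matrix.mul_assoc]
        rw [← Matrix.mul_assoc S0ᵀ, v1, hJJ, neg_neg]
      have a2 := congrArg (fun Y => Y * J) (mul_eq_one_comm.1 a1)
      simpa only [Matrix.mul_neg, Matrix.neg_mul, Matrix.mul_assoc, hJJ, Matrix.mul_one, neg_neg,
        Matrix.one_mul] using a2
    have p1 := psd_conj (psd_tmul S0) (J * T' * J)
    have p2 := psd_conj v2 (J * T' * J)
    rw [hUs] at p1 p2
    rw [Matrix.mul_sub, Matrix.sub_mul] at p2
    obtain ⟨Pk, hPk, lP⟩ := approx hJt hJJ (fun k => t3 (φ k)) (fun k => t4 (φ k))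
      (fun k => t5 (φ k)) (fun k => t6 (φ k)) lM ((lU.mul lg).mul lU) p1 (by
        simp only [Matrix.mul_assoc, asc hJJ, Matrix.neg_mul, Matrix.mul_neg, Matrix.one_mul,
          asc3 hT', neg_neg, asc3 v3, asc3 v1, hJJ, Matrix.mul_one]) p2
    choose Q q1 q2 q3 using fun k => pure_sqrt hJt hJJ (hPk k).1 (hPk k).2.1
    have e : ∀ k, (Q k * T (φ k))ᵀ * (Q k * T (φ k)) = T (φ k) * Pk k * T (φ k) := by
      intro k
      rw [transpose_mul, t1, psd_symm (q1 k), ← q2]
      simp only [Matrix.mul_assoc]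
    have lQ : Tendsto (fun k => (Q k * T (φ k))ᵀ * (Q k * T (φ k))) atTop (𝓝 (S0ᵀ * S0)) := by
      have := (lT.mul lP).mul lT
      rw [tut hJJ hT'] at this
      simpa only [e] using this
    refine le_of_tendsto_of_tendsto' lG (logTop_tendsto n hJJ v1 lQ) fun k => ?_
    refine csInf_le (FS_bdd n hJJ _) ⟨_, ?_, ?_, rfl⟩
    · rw [transpose_mul, t1, psd_symm (q1 k)]
      simp only [Matrix.mul_assoc, asc3 (q3 k)]
      rw [← Matrix.mul_assoc, t2]
    · have := psd_conj (hPk k).2.2 (T (φ k))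
      rw [t1, Matrix.mul_sub, Matrix.sub_mul, tut hJJ (t2 _)] at this
      rwa [e]
  rwa [key]

end

theorem result (n : ℕ) : ContinuousOn (G n) {g | IsCov n g} := by
  intro g0 h0
  have : FirstCountableTopology (Matrix (Fin n × Fin 2) (Fin n × Fin 2) ℝ) :=
    inferInstanceAs (FirstCountableTopology ((Fin n × Fin 2) → (Fin n × Fin 2) → ℝ))
  rw [ContinuousWithinAt, tendsto_iff_seq_tendsto]
  intro g hg
  rw [tendsto_nhdsWithin_iff] at hg
  obtain ⟨N, hN⟩ := eventually_atTop.1 hg.2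
  rw [← tendsto_add_atTop_iff_nat N]
  refine tendsto_of_subseq_tendsto fun ns hns => ?_
  exact main n (g := fun k => g (ns k + N)) (sigma_t n) (sigma_sq n)
    (fun k => unc_of (sigma_t n) (hN _ (by omega)).1 (hN _ (by omega)).2)
    (unc_of (sigma_t n) h0.1 h0.2) (hg.1.comp ((tendsto_add_atTop_nat N).comp hns))

end Pool.Agent.Results.MP_7519fb_mp.Cont
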